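import Pool.Agent.Lib.MP_6bc78b_nt.MS.GL.Iface

/-! Project MS, Part GL, module WNB: the coefficients of `QW`. -/

set_option autoImplicit false

namespace Pool.Agent.Lib.MP_6bc78b_nt.MS.GL.H79

open Pool.Agent.Lib.MP_6bc78b_nt.MS.GL MeasureTheory

theorem integral_exp_lin (a b c : ℝ) (hc : c ≠ 0) :
    ∫ δ in a..b, Real.exp (-(δ * c)) = (Real.exp (-(a * c)) - Real.exp (-(b * c))) / c := by
  have hd : ∀ x ∈ Set.uIcc a b,
      HasDerivAt (fun δ : ℝ => -(Real.exp (-(δ * c)) / c)) (Real.exp (-(x * c))) x := by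
    intro x _
    have h1 : HasDerivAt (fun δ : ℝ => -(δ * c)) (-c) x := by
      have h := ((hasDerivAt_id' x).mul_const c).fun_neg
      simpa using h
    have h2 := (h1.exp.div_const c).fun_neg
    have h3 : -(Real.exp (-(x * c)) * -c / c) = Real.exp (-(x * c)) := by
      rw [mul_neg, neg_div, neg_neg, mul_div_assoc, div_self hc, mul_one]
    rwa [h3] at h2
  rw [intervalIntegral.integral_eq_sub_of_hasDerivAt hd]
  · ring
  · exact (by fun_prop : Continuous fun x : ℝ => Real.exp (-(x * c))).intervalIntegrable _ _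

theorem phd_bounds (δ l u : ℝ) (hδ : 0 ≤ δ) (hu : 0 ≤ u) (hul : u ≤ l) :
    0 ≤ phd δ l u ∧ phd δ l u ≤ Real.exp (-(δ * u)) ∧
      Real.exp (-(δ * u)) - Real.exp (-(δ * l)) ≤ phd δ l u := by
  have hc : 0 < Real.cosh (δ * l) := Real.cosh_pos _
  have h1 : 0 ≤ δ * (l - u) := mul_nonneg hδ (sub_nonneg.mpr hul)
  have hkey : Real.exp (-(δ * u)) - phd δ l u =
      Real.cosh (δ * u) * Real.exp (-(δ * l)) / Real.cosh (δ * l) := by
    unfold phd
    have h2 : Real.sinh (δ * (l - u)) =
        Real.sinh (δ * l) * Real.cosh (δ * u) - Real.cosh (δ * l) * Real.sinh (δ * u) := by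
      rw [mul_sub, Real.sinh_sub]
    have h3 : Real.exp (-(δ * u)) = Real.cosh (δ * u) - Real.sinh (δ * u) := by
      rw [Real.cosh_sub_sinh]
    have h4 : Real.exp (-(δ * l)) = Real.cosh (δ * l) - Real.sinh (δ * l) := by
      rw [Real.cosh_sub_sinh]
    rw [h2, h3, h4]
    field_simp
    ring
  have hcc : Real.cosh (δ * u) ≤ Real.cosh (δ * l) := by
    rw [Real.cosh_le_cosh, abs_of_nonneg (mul_nonneg hδ hu),
      abs_of_nonneg (mul_nonneg hδ (hu.trans hul))]
    exact mul_le_mul_of_nonneg_left hul hδ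
  have hcu : 0 < Real.cosh (δ * u) := Real.cosh_pos _
  have hel : 0 < Real.exp (-(δ * l)) := Real.exp_pos _
  refine ⟨?_, ?_, ?_⟩
  · exact div_nonneg (Real.sinh_nonneg_iff.mpr h1) hc.le
  · have : 0 ≤ Real.exp (-(δ * u)) - phd δ l u := by
      rw [hkey]
      positivity
    linarith
  · have : Real.exp (-(δ * u)) - phd δ l u ≤ Real.exp (-(δ * l)) := by
      rw [hkey, div_le_iff₀ hc, mul_comm]
      exact mul_le_mul_of_nonneg_left hcc hel.le
    linarith

theorem continuous_phd (l u : ℝ) : Continuous (fun δ : ℝ => phd δ l u) := by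
  unfold phd
  refine Continuous.div ?_ ?_ (fun x => (Real.cosh_pos _).ne')
  · exact Real.continuous_sinh.comp (by fun_prop)
  · exact Real.continuous_cosh.comp (by fun_prop)

theorem wnb : WnbStatement := by
  intro lam K hlam hlam1 hK
  refine ⟨max 4 (Real.exp (2 * K)), lt_max_of_lt_left (by norm_num), ?_⟩
  intro T hT n hn hnT
  have hT4 : 4 ≤ T := (le_max_left _ _).trans hT
  have hT0 : 0 < T := by linarith
  have hL : 2 * K ≤ Real.log T := by
    have := Real.log_le_log (Real.exp_pos _) ((le_max_right _ _).trans hT)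
    rwa [Real.log_exp] at this
  have hn0 : (0 : ℝ) < n := by
    have : (2 : ℝ) ≤ n := by exact_mod_cast hn
    linarith
  have hL0 : 0 < Real.log T := by linarith
  have hu : 0 < Real.log n := Real.log_pos (by exact_mod_cast hn)
  have hul : Real.log n ≤ lam * Real.log T := by
    have := Real.log_le_log hn0 hnT
    rwa [Real.log_rpow hT0] at this
  set L := Real.log T with hLdef
  set u := Real.log (n : ℝ) with hudef
  set l := lam * L with hldef
  have hl0 : 0 < l := by positivity
  have hKL : K / L ≤ 3 / 4 := by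
    rw [div_le_iff₀ hL0]
    linarith
  have hKL0 : 0 < K / L := by positivity
  have hw : wn lam K T n = ∫ δ in (K / L)..(3 / 4), phd δ l u := rfl
  have hI1 : IntervalIntegrable (fun δ => phd δ l u) volume (K / L) (3 / 4) :=
    (continuous_phd l u).intervalIntegrable _ _
  have hI2 : ∀ c : ℝ, IntervalIntegrable (fun δ : ℝ => Real.exp (-(δ * c))) volume
      (K / L) (3 / 4) := fun c =>
    (by fun_prop : Continuous fun x : ℝ => Real.exp (-(x * c))).intervalIntegrable _ _
  have hpos : ∀ δ ∈ Set.Icc (K / L) (3 / 4), 0 ≤ δ := fun δ hδ => hKL0.le.trans hδ.1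
  have h1 : 0 ≤ wn lam K T n := by
    rw [hw]
    exact intervalIntegral.integral_nonneg hKL
      (fun δ hδ => (phd_bounds δ l u (hpos δ hδ) hu.le hul).1)
  have h2 : wn lam K T n ≤ (Real.exp (-(K / L * u)) - Real.exp (-(3 / 4 * u))) / u := by
    rw [hw, ← integral_exp_lin _ _ u hu.ne']
    exact intervalIntegral.integral_mono_on hKL hI1 (hI2 u)
      (fun δ hδ => (phd_bounds δ l u (hpos δ hδ) hu.le hul).2.1)
  have h3 : (Real.exp (-(K / L * u)) - Real.exp (-(3 / 4 * u))) / u -
      (Real.exp (-(K / L * l)) - Real.exp (-(3 / 4 * l))) / l ≤ wn lam K T n := by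
    rw [hw, ← integral_exp_lin _ _ u hu.ne', ← integral_exp_lin _ _ l hl0.ne',
      ← intervalIntegral.integral_sub (hI2 u) (hI2 l)]
    exact intervalIntegral.integral_mono_on hKL ((hI2 u).sub (hI2 l)) hI1
      (fun δ hδ => (phd_bounds δ l u (hpos δ hδ) hu.le hul).2.2)
  have h4 : u * wn lam K T n ≤ Real.exp (-(K / L * u)) - Real.exp (-(3 / 4 * u)) := by
    have := mul_le_mul_of_nonneg_left h2 hu.le
    rwa [mul_div_cancel₀ _ hu.ne'] at this
  have h5 : Real.exp (-(K / L * u)) - Real.exp (-(3 / 4 * u)) - u / l ≤ u * wn lam K T n := by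
    have h6 := mul_le_mul_of_nonneg_left h3 hu.le
    rw [mul_sub, mul_div_cancel₀ _ hu.ne'] at h6
    have h7 : u * ((Real.exp (-(K / L * l)) - Real.exp (-(3 / 4 * l))) / l) ≤ u / l := by
      rw [mul_div_assoc', div_le_div_iff_of_pos_right hl0]
      have h8 : Real.exp (-(K / L * l)) ≤ 1 := Real.exp_le_one_iff.mpr (by
        have : 0 ≤ K / L * l := by positivity
        linarith)
      have h9 := Real.exp_pos (-(3 / 4 * l))
      nlinarith
    linarith
  have h6 : Real.exp (-(3 / 4 * u)) = (n : ℝ) ^ (-(3 / 4) : ℝ) := by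
    rw [Real.rpow_def_of_pos hn0]
    congr 1
    ring
  have h7 : Real.exp (-(K / L * u)) ≤ 1 := Real.exp_le_one_iff.mpr (by
    have : 0 ≤ K / L * u := by positivity
    linarith)
  have h8 : 1 - K / L * u ≤ Real.exp (-(K / L * u)) := by
    have := Real.add_one_le_exp (-(K / L * u))
    linarith
  have h9 : u / l = 1 / lam * (u / L) := by
    rw [hldef]
    field_simp
  have h10 : 0 ≤ 1 / lam * (u / L) := by positivity
  have h11 : K / L * u = K * (u / L) := by ring
  have h12 : (K + 2 / lam) * (u / L) = K * (u / L) + 2 * (1 / lam * (u / L)) := by ring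
  have h13 : 0 < (n : ℝ) ^ (-(3 / 4) : ℝ) := Real.rpow_pos_of_pos hn0 _
  have h14 : 0 ≤ K * (u / L) := by positivity
  refine ⟨h1, ?_, ?_⟩
  · have := Real.exp_pos (-(3 / 4 * u))
    linarith
  · rw [abs_le]
    constructor
    · rw [h12]
      linarith
    · rw [h12]
      have := Real.exp_pos (-(3 / 4 * u))
      linarith

end Pool.Agent.Lib.MP_6bc78b_nt.MS.GL.H79
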