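import Pool.Agent.Lib.MP_6bc78b_nt.MS.GL.Iface
import Pool.Agent.Lib.MP_6bc78b_nt.MS.GL.H79.Wnb

/-! Project MS, Part GL, module LZM: the logarithm of the derivative at a simple zero. -/

set_option autoImplicit false

open Complex Filter Topology MeasureTheory ArithmeticFunction

namespace Pool.Agent.Lib.MP_6bc78b_nt.MS.GL.H79

open Pool.Agent.Lib.MP_6bc78b_nt Pool.Agent.Lib.MP_6bc78b_nt.LL Pool.Agent.Lib.MP_6bc78b_nt.MS
  Pool.Agent.Lib.MP_6bc78b_nt.MS.P1 Pool.Agent.Lib.MP_6bc78b_nt.MS.QZ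
  Pool.Agent.Lib.MP_6bc78b_nt.MS.GL

/-- The sum of `n^(-5/4)`. -/
noncomputable def Z54 : ℝ := ∑' n : ℕ, (if n = 0 then 0 else 1 / (n : ℝ) ^ (5 / 4 : ℝ))

theorem summable_Z54 : Summable (fun n : ℕ => (if n = 0 then 0 else 1 / (n : ℝ) ^ (5 / 4 : ℝ))) := by
  have h1 : LSeriesSummable 1 ((5 / 4 : ℝ) : ℂ) :=
    LSeriesSummable_one_iff.mpr (by rw [ofReal_re]; norm_num)
  have h2 := h1.norm
  refine h2.congr (fun n => ?_)
  rw [LSeries.norm_term_eq, ofReal_re]
  simp

theorem norm_LSeries_le {f : ℕ → ℂ} (hf : ∀ n, ‖f n‖ ≤ 1) {s : ℂ} (hs : s.re = 5 / 4)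
    (hsum : LSeriesSummable f s) : ‖LSeries f s‖ ≤ Z54 := by
  have h1 : ‖LSeries f s‖ ≤ ∑' n, ‖LSeries.term f s n‖ := norm_tsum_le_tsum_norm hsum.norm
  refine h1.trans ?_
  refine hsum.norm.tsum_le_tsum (fun n => ?_) summable_Z54
  rw [LSeries.norm_term_eq, hs]
  split_ifs with h
  · exact le_rfl
  · exact div_le_div_of_nonneg_right (hf n) (Real.rpow_nonneg (Nat.cast_nonneg n) _)

theorem log_zeta_bound : ∃ C : ℝ, 0 < C ∧ ∀ y : ℝ,
    |Real.log ‖riemannZeta (1 / 2 + (3 / 4 : ℝ) + y * I)‖| ≤ C := by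
  refine ⟨|Real.log Z54| + 1, by positivity, fun y => ?_⟩
  set s : ℂ := 1 / 2 + (3 / 4 : ℝ) + y * I with hs
  have hre : s.re = 5 / 4 := by
    rw [hs]
    simp only [add_re, mul_re, ofReal_re, ofReal_im, I_re, I_im, mul_zero, mul_one, sub_zero,
      zero_mul]
    norm_num
  have hre1 : 1 < s.re := by rw [hre]; norm_num
  have h1 : ‖riemannZeta s‖ ≤ Z54 := by
    rw [← LSeries_zeta_eq_riemannZeta hre1]
    refine norm_LSeries_le (fun n => ?_) hre (LSeriesSummable_zeta_iff.mpr hre1)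
    by_cases hn : n = 0
    · simp [hn]
    · simp [natCoe_apply, zeta_apply, hn]
  have h2 : ‖LSeries (fun n => ((moebius n : ℤ) : ℂ)) s‖ ≤ Z54 := by
    refine norm_LSeries_le (fun n => ?_) hre (LSeriesSummable_moebius_iff.mpr hre1)
    rw [Complex.norm_intCast]
    exact_mod_cast abs_moebius_le_one
  have h3 : riemannZeta s * LSeries (fun n => ((moebius n : ℤ) : ℂ)) s = 1 := by
    rw [← LSeries_zeta_eq_riemannZeta hre1]
    exact LSeries_zeta_mul_Lseries_moebius hre1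
  have h4 : ‖riemannZeta s‖ * ‖LSeries (fun n => ((moebius n : ℤ) : ℂ)) s‖ = 1 := by
    rw [← norm_mul, h3, norm_one]
  have hz : 0 < ‖riemannZeta s‖ := by
    rw [norm_pos_iff]
    intro h0
    rw [h0, zero_mul] at h3
    exact zero_ne_one h3
  have hZ : 0 < Z54 := hz.trans_le h1
  have h5 : 1 ≤ ‖riemannZeta s‖ * Z54 := by
    rw [← h4]
    exact mul_le_mul_of_nonneg_left h2 hz.le
  have h6 : Real.log ‖riemannZeta s‖ ≤ Real.log Z54 := Real.log_le_log hz h1
  have h7 : 0 ≤ Real.log ‖riemannZeta s‖ + Real.log Z54 := by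
    rw [← Real.log_mul hz.ne' hZ.ne']
    exact Real.log_nonneg h5
  have h8 := le_abs_self (Real.log Z54)
  rw [abs_le]
  constructor <;> linarith

theorem deriv_xi_at_zero {s : ℂ} (hs : 0 < s.re) (hs1 : s ≠ 1) (hz : riemannZeta s = 0) :
    deriv xi s = s * (s - 1) * Gammaℝ s * deriv riemannZeta s := by
  have h1 : xi =ᶠ[𝓝 s] fun s => (s * (s - 1) * Gammaℝ s) * riemannZeta s := by
    have ho : IsOpen {z : ℂ | 0 < z.re ∧ z ≠ 1} :=
      (isOpen_lt continuous_const Complex.continuous_re).inter isOpen_ne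
    filter_upwards [ho.mem_nhds ⟨hs, hs1⟩] with z hz
    rw [xi_eq hz.1 hz.2]
  have hd1 : DifferentiableAt ℂ (fun s : ℂ => s * (s - 1) * Gammaℝ s) s :=
    (by fun_prop : DifferentiableAt ℂ (fun s : ℂ => s * (s - 1)) s).mul
      (differentiableAt_Gammaℝ hs)
  have hd2 : DifferentiableAt ℂ riemannZeta s := differentiableAt_riemannZeta hs1
  rw [h1.deriv_eq, deriv_fun_mul hd1 hd2, hz, mul_zero, zero_add]

theorem qp_re (φ : ℝ → ℝ) (lam T y : ℝ) : (QP φ lam T y).re =
    ∑ n ∈ Finset.Icc 1 ⌊T ^ lam⌋₊, vonMangoldt n * φ (Real.log n) *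
      ((n : ℂ) ^ (-(1 / 2 + y * I : ℂ))).re := by
  unfold QP
  rw [Complex.re_sum]
  refine Finset.sum_congr rfl (fun n _ => ?_)
  rw [Complex.re_ofReal_mul]

theorem qw_re (lam K T y : ℝ) : (QW lam K T y).re =
    ∫ δ in (K / Real.log T)..(3 / 4), (QP (phd δ (lam * Real.log T)) lam T y).re := by
  have h1 : (fun δ : ℝ => (QP (phd δ (lam * Real.log T)) lam T y).re) = fun δ =>
      ∑ n ∈ Finset.Icc 1 ⌊T ^ lam⌋₊, vonMangoldt n * phd δ (lam * Real.log T) (Real.log n) *
        ((n : ℂ) ^ (-(1 / 2 + y * I : ℂ))).re := by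
    funext δ
    rw [qp_re]
  rw [h1, intervalIntegral.integral_finset_sum]
  · unfold QW
    rw [Complex.re_sum]
    refine Finset.sum_congr rfl (fun n _ => ?_)
    rw [Complex.re_ofReal_mul, intervalIntegral.integral_mul_const,
      intervalIntegral.integral_const_mul, wn]
  · intro n _
    exact (((continuous_phd _ _).const_mul _).mul_const _).intervalIntegrable _ _

theorem continuous_qp (lam T y l : ℝ) :
    Continuous (fun δ : ℝ => (QP (phd δ l) lam T y).re) := by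
  have h1 : (fun δ : ℝ => (QP (phd δ l) lam T y).re) = fun δ =>
      ∑ n ∈ Finset.Icc 1 ⌊T ^ lam⌋₊, vonMangoldt n * phd δ l (Real.log n) *
        ((n : ℂ) ^ (-(1 / 2 + y * I : ℂ))).re := by
    funext δ
    rw [qp_re]
  rw [h1]
  exact continuous_finset_sum _ (fun n _ => ((continuous_phd _ _).const_mul _).mul_const _)

theorem tanh_eq_phd (δ l : ℝ) : Real.tanh (δ * l) = phd δ l 0 := by
  unfold phd
  rw [Real.tanh_eq_sinh_div_cosh, sub_zero]

theorem tanh_int (δ1 l : ℝ) (h0 : 0 < δ1) (h1 : δ1 ≤ 3 / 4) (hl : 0 < l) :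
    ∫ δ in δ1..(3 / 4), Real.tanh (δ * l) ≤ 3 / 4 ∧
      3 / 4 - δ1 - 1 / l ≤ ∫ δ in δ1..(3 / 4), Real.tanh (δ * l) := by
  have he : (fun δ : ℝ => Real.tanh (δ * l)) = fun δ => phd δ l 0 := by
    funext δ
    exact tanh_eq_phd δ l
  have hI : IntervalIntegrable (fun δ => phd δ l 0) volume δ1 (3 / 4) :=
    (continuous_phd l 0).intervalIntegrable _ _
  have hI2 : IntervalIntegrable (fun δ : ℝ => Real.exp (-(δ * l))) volume δ1 (3 / 4) :=
    (by fun_prop : Continuous fun x : ℝ => Real.exp (-(x * l))).intervalIntegrable _ _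
  have hb : ∀ δ ∈ Set.Icc δ1 (3 / 4), 1 - Real.exp (-(δ * l)) ≤ phd δ l 0 ∧ phd δ l 0 ≤ 1 := by
    intro δ hδ
    have h := phd_bounds δ l 0 (h0.le.trans hδ.1) le_rfl hl.le
    rw [mul_zero, neg_zero, Real.exp_zero] at h
    exact ⟨h.2.2, h.2.1⟩
  rw [he]
  constructor
  · have h2 : ∫ δ in δ1..(3 / 4), phd δ l 0 ≤ ∫ _ in δ1..(3 / 4), (1 : ℝ) :=
      intervalIntegral.integral_mono_on h1 hI intervalIntegrable_const (fun δ hδ => (hb δ hδ).2)
    rw [intervalIntegral.integral_const, smul_eq_mul, mul_one] at h2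
    linarith
  · have h2 : ∫ δ in δ1..(3 / 4), (1 - Real.exp (-(δ * l))) ≤ ∫ δ in δ1..(3 / 4), phd δ l 0 :=
      intervalIntegral.integral_mono_on h1 (intervalIntegrable_const.sub hI2) hI
        (fun δ hδ => (hb δ hδ).1)
    rw [intervalIntegral.integral_sub intervalIntegrable_const hI2,
      intervalIntegral.integral_const, smul_eq_mul, mul_one, integral_exp_lin _ _ l hl.ne'] at h2
    have h3 : (Real.exp (-(δ1 * l)) - Real.exp (-(3 / 4 * l))) / l ≤ 1 / l := by
      rw [div_le_div_iff_of_pos_right hl]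
      have h4 : Real.exp (-(δ1 * l)) ≤ 1 := Real.exp_le_one_iff.mpr (by
        have : 0 < δ1 * l := by positivity
        linarith)
      have h5 := Real.exp_pos (-(3 / 4 * l))
      linarith
    linarith

/-- LZM. -/
theorem lzm (h1 : Lx1Statement) (h2 : Lx2Statement) (h3 : StgStatement) (h4 : ExdStatement) :
    LzmStatement := by
  intro lam K hlam hlam1 hK
  obtain ⟨Cz, hCz, hz⟩ := log_zeta_bound
  obtain ⟨Cg, hCg, hg⟩ := h3
  obtain ⟨Ce, hCe, he⟩ := h4 (1 - lam) (by linarith) (by linarith)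
  have hK0 : 0 < K := by linarith
  have hi : 0 < 1 / lam := by positivity
  refine ⟨Cg + Cz + (K + 1 / lam) + Ce + |Real.log K|,
    max (max 6 (Real.exp (2 * K))) (Real.exp (1 / lam)),
    by positivity, lt_max_of_lt_left (lt_max_of_lt_left (by norm_num)), ?_⟩
  intro T hT y hy hm
  have hT6 : 6 ≤ T := ((le_max_left _ _).trans (le_max_left _ _)).trans hT
  have hT0 : 0 < T := by linarith
  have hL2 : 2 * K ≤ Real.log T := by
    have := Real.log_le_log (Real.exp_pos _) (((le_max_right _ _).trans (le_max_left _ _)).trans hT)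
    rwa [Real.log_exp] at this
  have hLl : 1 / lam ≤ Real.log T := by
    have := Real.log_le_log (Real.exp_pos _) ((le_max_right _ _).trans hT)
    rwa [Real.log_exp] at this
  obtain ⟨hy1, hy2, hzero⟩ := hy
  have hy3 : 3 ≤ y := by linarith
  have hy0 : 0 < y := by linarith
  set L := Real.log T with hLdef
  have hL0 : 0 < L := by linarith
  have hl1 : 1 ≤ lam * L := by
    have := mul_le_mul_of_nonneg_left hLl hlam.le
    rwa [mul_one_div_cancel hlam.ne'] at this
  set l := lam * L with hldef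
  have hl0 : 0 < l := by linarith
  set δ1 := K / L with hδdef
  have hδ0 : 0 < δ1 := by positivity
  have hδ1 : δ1 < 3 / 4 := by
    rw [hδdef, div_lt_iff₀ hL0]
    linarith
  have hlogδ : Real.log δ1 = Real.log K - Real.log L := Real.log_div hK0.ne' hL0.ne'
  have hlogy0 : 0 ≤ Real.log y := Real.log_nonneg (by linarith)
  have hlogy : Real.log y ≤ 2 * L := by
    have h5 : Real.log y ≤ Real.log (T ^ 2) := Real.log_le_log hy0 (by nlinarith)
    rw [Real.log_pow] at h5
    push_cast at h5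
    exact h5
  -- the pieces
  obtain ⟨hc, hX⟩ := h1 y δ1 hδ0 hδ1
  obtain ⟨_, hd0, hD⟩ := h2 y δ1 hm hδ0 (by linarith)
  have hre : (0 : ℝ) < (1 / 2 + y * I : ℂ).re := by
    simp only [add_re, mul_re, ofReal_re, ofReal_im, I_re, I_im, mul_zero, mul_one, sub_zero]
    norm_num
  have hne : (1 / 2 + y * I : ℂ) ≠ 1 := by
    intro h
    have h5 := congrArg Complex.im h
    simp only [add_im, mul_im, ofReal_re, ofReal_im, I_re, I_im, mul_zero, mul_one,
      one_im] at h5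
    norm_num at h5
    exact hy0.ne' h5
  have hxi' := deriv_xi_at_zero hre hne hzero
  have hgg : (1 / 2 + y * I : ℂ) * ((1 / 2 + y * I : ℂ) - 1) * Gammaℝ (1 / 2 + y * I) ≠ 0 ∧
      deriv riemannZeta (1 / 2 + y * I) ≠ 0 := by
    rw [hxi'] at hd0
    exact ⟨left_ne_zero_of_mul hd0, right_ne_zero_of_mul hd0⟩
  have e1 : Real.log ‖deriv xi (1 / 2 + y * I)‖ =
      Real.log ‖(1 / 2 + y * I : ℂ) * ((1 / 2 + y * I : ℂ) - 1) * Gammaℝ (1 / 2 + y * I)‖ +
        Real.log ‖deriv riemannZeta (1 / 2 + y * I)‖ := by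
    rw [hxi', norm_mul, Real.log_mul (norm_ne_zero_iff.mpr hgg.1) (norm_ne_zero_iff.mpr hgg.2)]
  have hre3 : (0 : ℝ) < (1 / 2 + (3 / 4 : ℝ) + y * I : ℂ).re := by
    simp only [add_re, mul_re, ofReal_re, ofReal_im, I_re, I_im, mul_zero, mul_one, sub_zero]
    norm_num
  have hre31 : (1 : ℝ) ≤ (1 / 2 + (3 / 4 : ℝ) + y * I : ℂ).re := by
    simp only [add_re, mul_re, ofReal_re, ofReal_im, I_re, I_im, mul_zero, mul_one, sub_zero]
    norm_num
  have hne3 : (1 / 2 + (3 / 4 : ℝ) + y * I : ℂ) ≠ 1 := by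
    intro h
    have h5 := congrArg Complex.im h
    simp only [add_im, mul_im, ofReal_re, ofReal_im, I_re, I_im, mul_zero, mul_one,
      one_im] at h5
    norm_num at h5
    exact hy0.ne' h5
  have hx3 := xi_ne_zero_of_one_le hre31
  have hxe := xi_eq hre3 hne3
  have e4 : Real.log ‖xi (1 / 2 + (3 / 4 : ℝ) + y * I)‖ =
      Real.log ‖(1 / 2 + (3 / 4 : ℝ) + y * I : ℂ) * ((1 / 2 + (3 / 4 : ℝ) + y * I : ℂ) - 1) *
        Gammaℝ (1 / 2 + (3 / 4 : ℝ) + y * I)‖ +
        Real.log ‖riemannZeta (1 / 2 + (3 / 4 : ℝ) + y * I)‖ := by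
    rw [hxe] at hx3
    rw [hxe, norm_mul, Real.log_mul (norm_ne_zero_iff.mpr (left_ne_zero_of_mul hx3))
      (norm_ne_zero_iff.mpr (right_ne_zero_of_mul hx3))]
  have e5 := abs_le.mp (hg y hy3)
  have e6 := abs_le.mp (hz y)
  -- the integral of the explicit formula
  have hδle : δ1 ≤ 3 / 4 := hδ1.le
  have iP : IntervalIntegrable (fun δ => PD δ y) volume δ1 (3 / 4) :=
    (hc.mono (by rw [Set.uIcc_of_le hδle])).intervalIntegrable
  have cth : Continuous (fun δ : ℝ => Real.tanh (δ * l)) := by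
    have hh : (fun δ : ℝ => Real.tanh (δ * l)) = fun δ => phd δ l 0 := by
      funext δ
      exact tanh_eq_phd δ l
    rw [hh]
    exact continuous_phd l 0
  have iT : IntervalIntegrable (fun δ : ℝ => 1 / 2 * Real.log y * Real.tanh (δ * l))
      volume δ1 (3 / 4) := (cth.const_mul _).intervalIntegrable _ _
  have iQ : IntervalIntegrable (fun δ : ℝ => (QP (phd δ l) lam T y).re) volume δ1 (3 / 4) :=
    (continuous_qp lam T y l).intervalIntegrable _ _
  have iE : IntervalIntegrable (fun δ : ℝ => PD δ y / Real.cosh (δ * l)) volume δ1 (3 / 4) := by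
    refine ContinuousOn.intervalIntegrable ?_
    rw [Set.uIcc_of_le hδle]
    exact hc.div ((Real.continuous_cosh.comp (by fun_prop)).continuousOn)
      (fun x _ => (Real.cosh_pos _).ne')
  have hF : ∀ δ ∈ Set.Icc δ1 (3 / 4),
      |PD δ y - 1 / 2 * Real.log y * Real.tanh (δ * l) + (QP (phd δ l) lam T y).re| ≤
        Ce + PD δ y / Real.cosh (δ * l) := by
    intro δ hδ
    exact he T lam y δ hT6 hl1 (by linarith) hy1 hy2 (hδ0.trans_le hδ.1) hδ.2
  have iF : IntervalIntegrable (fun δ => PD δ y - 1 / 2 * Real.log y * Real.tanh (δ * l) +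
      (QP (phd δ l) lam T y).re) volume δ1 (3 / 4) := (iP.sub iT).add iQ
  have e7 : |∫ δ in δ1..(3 / 4), (PD δ y - 1 / 2 * Real.log y * Real.tanh (δ * l) +
      (QP (phd δ l) lam T y).re)| ≤
        ∫ δ in δ1..(3 / 4), (Ce + PD δ y / Real.cosh (δ * l)) := by
    refine (intervalIntegral.abs_integral_le_integral_abs hδle).trans ?_
    exact intervalIntegral.integral_mono_on hδle iF.abs (intervalIntegrable_const.add iE) hF
  rw [intervalIntegral.integral_add (iP.sub iT) iQ, intervalIntegral.integral_sub iP iT,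
    intervalIntegral.integral_add intervalIntegrable_const iE, intervalIntegral.integral_const,
    smul_eq_mul, intervalIntegral.integral_const_mul] at e7
  have e8 := abs_le.mp e7
  have e9 : ((3 : ℝ) / 4 - δ1) * Ce ≤ Ce := by
    have : (3 : ℝ) / 4 - δ1 ≤ 1 := by linarith
    nlinarith
  have e10 := tanh_int δ1 l hδ0 hδle hl0
  have eQ : (QW lam K T y).re = ∫ δ in δ1..(3 / 4), (QP (phd δ l) lam T y).re :=
    qw_re lam K T y
  -- the main term
  have e11 : 1 / 2 * Real.log y * (∫ δ in δ1..(3 / 4), Real.tanh (δ * l)) ≤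
      3 / 8 * Real.log y := by
    have := mul_le_mul_of_nonneg_left e10.1 (by linarith : 0 ≤ 1 / 2 * Real.log y)
    linarith
  have e12 : 3 / 8 * Real.log y - (K + 1 / lam) ≤
      1 / 2 * Real.log y * (∫ δ in δ1..(3 / 4), Real.tanh (δ * l)) := by
    have h5 := mul_le_mul_of_nonneg_left e10.2 (by linarith : 0 ≤ 1 / 2 * Real.log y)
    have h6 : 1 / 2 * Real.log y * (δ1 + 1 / l) ≤ L * (δ1 + 1 / l) :=
      mul_le_mul_of_nonneg_right (by linarith) (by positivity)
    have h7 : L * (δ1 + 1 / l) = K + 1 / lam := by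
      rw [hδdef, hldef]
      field_simp
    have h8 : 1 / 2 * Real.log y * (3 / 4 - δ1 - 1 / l) =
        3 / 8 * Real.log y - 1 / 2 * Real.log y * (δ1 + 1 / l) := by ring
    rw [h8] at h5
    linarith
  have hlogK := abs_le.mp (le_refl |Real.log K|)
  rw [e1] at hD
  rw [eQ]
  rw [abs_le]
  constructor
  · linarith [e8.1, e8.2, e5.1, e5.2, e6.1, e6.2, hlogK.1, hlogK.2]
  · linarith [e8.1, e8.2, e5.1, e5.2, e6.1, e6.2, hlogK.1, hlogK.2]

end Pool.Agent.Lib.MP_6bc78b_nt.MS.GL.H79
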